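import Pool.Agent.Lib.MP_a0e7a4_nt.Dens

set_option autoImplicit false

namespace Pool.Agent.Results.MP_a0e7a4_nt.DenseLonely

/-- Weak lonely runner bound for a fixed proportion of all times: there are absolute constants
`c > 1/2` and `η > 0` such that for every `n ≥ 2` and all non-zero real velocities
`v_1, …, v_n`, every sufficiently long interval of times, of length `T`, contains a set of
Lebesgue measure at least `η T` of times `t` at which every `v_i t` has distance at least `c / n`
from every integer. -/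
theorem result :
    ∃ c : ℝ, 1 / 2 < c ∧ ∃ η : ℝ, 0 < η ∧
      ∀ n : ℕ, 2 ≤ n → ∀ v : Fin n → ℝ, (∀ i, v i ≠ 0) → ∃ T₀ : ℝ, ∀ T : ℝ, T₀ ≤ T → ∀ a : ℝ,
        ENNReal.ofReal (η * T) ≤
          MeasureTheory.volume {t : ℝ | t ∈ Set.Icc a (a + T) ∧
            ∀ (i : Fin n) (m : ℤ), c / (n : ℝ) ≤ |v i * t - (m : ℝ)|} :=
  Pool.Agent.Lib.MP_a0e7a4_nt.dense_lonely

end Pool.Agent.Results.MP_a0e7a4_nt.DenseLonely
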