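import Mathlib
import Pool.Agent.FS.ShiftedLonely.Core

set_option autoImplicit false

namespace Pool.Agent.Results.MP_a0e7a4_nt.ShiftedLonely

/-- Lonely runners with arbitrary starting points `s i`.  Suppose the ratio `|v i| / |v j|` is
not a fraction with numerator and denominator below `H i j` (where `2 ≤ H i j`), and the sum of
`1 / H i j` over the ordered pairs `i ≠ j` is at most `κ n`.  If `1/2 ≤ c ≤ 1` and
`4 c - 2 + (1 + c) κ < (1 - c) ^ 2`, then at some time `t` every `v i t + s i` has distance at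
least `c / n` from every integer. -/
theorem result :
    ∀ n : ℕ, 2 ≤ n → ∀ v s : Fin n → ℝ, (∀ i, v i ≠ 0) → ∀ H : Fin n → Fin n → ℕ,
      (∀ i j, i ≠ j → 2 ≤ H i j ∧
        ∀ a b : ℕ, 0 < a → a < H i j → 0 < b → b < H i j → (a : ℝ) * |v i| ≠ (b : ℝ) * |v j|) →
      ∀ κ c : ℝ, ∑ i, ∑ j ∈ Finset.univ.erase i, (1 : ℝ) / (H i j : ℝ) ≤ κ * (n : ℝ) →
        1 / 2 ≤ c → c ≤ 1 → 4 * c - 2 + (1 + c) * κ < (1 - c) ^ 2 →
        ∃ t : ℝ, ∀ (i : Fin n) (m : ℤ), c / (n : ℝ) ≤ |v i * t + s i - (m : ℝ)| :=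
  fun n hn v s hv H hh κ c hS hc hc1 hg =>
    Pool.Agent.FS.ShiftedLonely.shifted n hn v s hv H hh κ c hS hc hc1 hg

end Pool.Agent.Results.MP_a0e7a4_nt.ShiftedLonely
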